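import Pool.Agent.H80.PK.GStmts

set_option autoImplicit false

namespace Pool.PK

open MeasureTheory Filter Topology UniformSpace

section ext

variable {C : Type} [NonUnitalRing C] [Module ℂ C] [IsScalarTower ℂ C C] [SMulCommClass ℂ C C]

/-- the identity of `C` as a map of seminormed groups -/
noncomputable def exId (s t : ASN C) : SN s →+ SN t where
  toFun x := (show C from x)
  map_zero' := rfl
  map_add' _ _ := rfl

omit [IsScalarTower ℂ C C] [SMulCommClass ℂ C C] in
theorem exId_uc (s t : ASN C) (c : ℝ) (hc : ∀ f, t.N f ≤ c * s.N f) :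
    UniformContinuous (exId s t) :=
  AddMonoidHomClass.uniformContinuous_of_bound (exId s t) c (fun x => hc x)

/-- its extension to the completions -/
noncomputable def exMap (s t : ASN C) : CP s → CP t :=
  UniformSpace.Completion.map (exId s t)

omit [IsScalarTower ℂ C C] [SMulCommClass ℂ C C] in
theorem exMap_coe (s t : ASN C) (c : ℝ) (hc : ∀ f, t.N f ≤ c * s.N f) (x : SN s) :
    exMap s t (x : CP s) = ((exId s t x : SN t) : CP t) :=
  Completion.map_coe (exId_uc s t c hc) x

omit [IsScalarTower ℂ C C] [SMulCommClass ℂ C C] in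
theorem exMap_cont (s t : ASN C) : Continuous (exMap s t) := Completion.continuous_map

/-- the extension as an algebra map -/
noncomputable def exHom (s t : ASN C) (c : ℝ) (hc : ∀ f, t.N f ≤ c * s.N f) :
    CP s →ₙₐ[ℂ] CP t where
  toFun := exMap s t
  map_smul' := fun r a => by
    refine Completion.induction_on
      (p := fun a : Completion (SN s) => exMap s t (r • a) = r • exMap s t a) a
      (isClosed_eq ((exMap_cont s t).comp (continuous_const_smul r))
        ((exMap_cont s t).const_smul r)) fun f => ?_
    rw [← Completion.coe_smul, exMap_coe s t c hc, exMap_coe s t c hc, ← Completion.coe_smul]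
    rfl
  map_zero' := by
    rw [← Completion.coe_zero, exMap_coe s t c hc, map_zero]
    rfl
  map_add' := fun a b => by
    refine Completion.induction_on₂
      (p := fun a b : Completion (SN s) => exMap s t (a + b) = exMap s t a + exMap s t b) a b
      (isClosed_eq ((exMap_cont s t).comp (continuous_fst.add continuous_snd))
        (((exMap_cont s t).comp continuous_fst).add ((exMap_cont s t).comp continuous_snd)))
      fun f g => ?_
    rw [← Completion.coe_add, exMap_coe s t c hc, exMap_coe s t c hc, exMap_coe s t c hc,
      ← Completion.coe_add]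
    rfl
  map_mul' := fun a b => by
    refine Completion.induction_on₂
      (p := fun a b : Completion (SN s) => exMap s t (a * b) = exMap s t a * exMap s t b) a b
      (isClosed_eq ((exMap_cont s t).comp (continuous_fst.mul continuous_snd))
        (((exMap_cont s t).comp continuous_fst).mul ((exMap_cont s t).comp continuous_snd)))
      fun f g => ?_
    rw [← coe_mul', exMap_coe s t c hc, exMap_coe s t c hc, exMap_coe s t c hc, ← coe_mul']
    rfl

omit [IsScalarTower ℂ C C] [SMulCommClass ℂ C C] in
theorem exHom_norm (s t : ASN C) (c : ℝ) (hc : ∀ f, t.N f ≤ c * s.N f) (b : CP s) :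
    ‖exHom s t c hc b‖ ≤ c * ‖b‖ := by
  refine Completion.induction_on
    (p := fun a : Completion (SN s) => ‖exMap s t a‖ ≤ c * ‖a‖) b
    (isClosed_le (exMap_cont s t).norm (continuous_const.mul continuous_norm)) fun f => ?_
  rw [exMap_coe s t c hc, Completion.norm_coe, Completion.norm_coe]
  exact hc f

/-- the extension to the unitizations -/
noncomputable def exUn (s t : ASN C) (c : ℝ) (hc : ∀ f, t.N f ≤ c * s.N f) :
    Unitization ℂ (CP s) →ₐ[ℂ] Unitization ℂ (CP t) :=
  Unitization.lift ((Unitization.inrNonUnitalAlgHom ℂ (CP t)).comp (exHom s t c hc))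

theorem exUn_fst (s t : ASN C) (c : ℝ) (hc : ∀ f, t.N f ≤ c * s.N f)
    (x : Unitization ℂ (CP s)) : (exUn s t c hc x).fst = x.fst := by
  induction x using Unitization.ind with
  | inl_add_inr r a => simp [exUn, Unitization.algebraMap_eq_inl]

theorem exUn_snd (s t : ASN C) (c : ℝ) (hc : ∀ f, t.N f ≤ c * s.N f)
    (x : Unitization ℂ (CP s)) : (exUn s t c hc x).snd = exHom s t c hc x.snd := by
  induction x using Unitization.ind with
  | inl_add_inr r a => simp [exUn, Unitization.algebraMap_eq_inl]

end ext

/-- row EXT -/
theorem EXT : EXTStmt := by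
  intro C _ _ _ _ s t c hc
  refine ⟨((WithLp.unitizationAlgEquiv (𝕜 := ℂ) (A := CP t) ℂ).symm.toAlgHom.comp
    (exUn s t c hc)).comp (WithLp.unitizationAlgEquiv (𝕜 := ℂ) (A := CP s) ℂ).toAlgHom, ?_, ?_, ?_⟩
  · refine AddMonoidHomClass.continuous_of_bound _ (max 1 c) fun x => ?_
    rw [WithLp.unitization_norm_def, WithLp.unitization_norm_def]
    change ‖(exUn s t c hc (WithLp.ofLp x)).fst‖ + ‖(exUn s t c hc (WithLp.ofLp x)).snd‖ ≤ _
    rw [exUn_fst, exUn_snd, mul_add]
    refine add_le_add ?_ ((exHom_norm s t c hc _).trans ?_)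
    · exact le_mul_of_one_le_left (norm_nonneg _) (le_max_left _ _)
    · exact mul_le_mul_of_nonneg_right (le_max_right _ _) (norm_nonneg _)
  · intro x
    change WithLp.toLp 1 (exUn s t c hc
      ((Unitization.inl x.fst : Unitization ℂ (CP s)) + Unitization.inr (cp s x.snd))) = _
    rw [iot]
    congr 1
    apply Unitization.ext
    · rw [exUn_fst]
      simp
    · rw [exUn_snd]
      have h : ((Unitization.inl x.fst : Unitization ℂ (CP s)) + Unitization.inr (cp s x.snd)).snd
          = cp s x.snd := by simp
      rw [h]
      have h' : ((Unitization.inl x.fst : Unitization ℂ (CP t)) + Unitization.inr (cp t x.snd)).snd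
          = cp t x.snd := by simp
      rw [h']
      exact exMap_coe s t c hc x.snd
  · intro y
    rw [aug_apply, aug_apply]
    exact exUn_fst s t c hc _

end Pool.PK
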